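import Pool.Agent.Helper23.EC.DGoalsA

/-!
# MP_ecc237_nt, Part D, packet A3: the derivative of `P`
-/

set_option autoImplicit false

namespace Pool.Agent.Helper8.EC.D_A3

open EC237

/-- The identity in a field. -/
theorem key {K : Type*} [Field K] [CharZero K] (c a1 a2 b1 b2 : K) (ha1 : a1 ≠ 0) (ha2 : a2 ≠ 0)
    (hb1 : b1 ≠ 0) (hb2 : b2 ≠ 0) (ha : a1 + a2 ≠ 0) (hb : b1 + b2 ≠ 0) :
    2 * c * ((a1⁻¹ * b2⁻¹ - b1⁻¹ * a2⁻¹) * ((a1 + a2)⁻¹ * (b1 + b2)⁻¹)) +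
    c * ((((1 / 2) * (a1⁻¹ ^ 2 * b1 - a1⁻¹) * b2⁻¹ + a1⁻¹ * ((1 / 2) * (b2⁻¹ ^ 2 * a2 - b2⁻¹))) -
      ((1 / 2) * (b1⁻¹ ^ 2 * a1 - b1⁻¹) * a2⁻¹ + b1⁻¹ * ((1 / 2) * (a2⁻¹ ^ 2 * b2 - a2⁻¹)))) *
        ((a1 + a2)⁻¹ * (b1 + b2)⁻¹) +
      (a1⁻¹ * b2⁻¹ - b1⁻¹ * a2⁻¹) *
        ((1 / 2) * ((a1 + a2)⁻¹ ^ 2 * (b1 + b2) - (a1 + a2)⁻¹) * (b1 + b2)⁻¹ +
          (a1 + a2)⁻¹ * ((1 / 2) * ((b1 + b2)⁻¹ ^ 2 * (a1 + a2) - (b1 + b2)⁻¹)))) =
    c * (1 / 2) * ((a2⁻¹ * b2⁻¹) * (a1⁻¹ ^ 2 - b1⁻¹ ^ 2) - (a1⁻¹ * b1⁻¹) * (a2⁻¹ ^ 2 - b2⁻¹ ^ 2) +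
      (((a1 + a2)⁻¹ * (b1 + b2)⁻¹) * (a2⁻¹ ^ 2 - b2⁻¹ ^ 2) -
        (a2⁻¹ * b2⁻¹) * ((a1 + a2)⁻¹ ^ 2 - (b1 + b2)⁻¹ ^ 2)) +
      ((a1⁻¹ * b1⁻¹) * ((a1 + a2)⁻¹ ^ 2 - (b1 + b2)⁻¹ ^ 2) -
        ((a1 + a2)⁻¹ * (b1 + b2)⁻¹) * (a1⁻¹ ^ 2 - b1⁻¹ ^ 2))) := by
  field_simp
  ring

/-- The identity in an integral domain. -/
theorem keyR {R : Type*} [CommRing R] [IsDomain R] [CharZero R]
    (c h a1 a2 b1 b2 as bs A1 A2 B1 B2 As Bs : R) (hh : 2 * h = 1)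
    (e1 : a1 * A1 = 1) (e2 : a2 * A2 = 1) (f1 : b1 * B1 = 1) (f2 : b2 * B2 = 1)
    (e : as * As = 1) (f : bs * Bs = 1) (ea : as = a1 + a2) (eb : bs = b1 + b2) :
    2 * c * ((A1 * B2 - B1 * A2) * (As * Bs)) +
    c * (((h * (A1 ^ 2 * b1 - A1) * B2 + A1 * (h * (B2 ^ 2 * a2 - B2))) -
      (h * (B1 ^ 2 * a1 - B1) * A2 + B1 * (h * (A2 ^ 2 * b2 - A2)))) * (As * Bs) +
      (A1 * B2 - B1 * A2) *
        (h * (As ^ 2 * bs - As) * Bs + As * (h * (Bs ^ 2 * as - Bs)))) =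
    c * h * ((A2 * B2) * (A1 ^ 2 - B1 ^ 2) - (A1 * B1) * (A2 ^ 2 - B2 ^ 2) +
      ((As * Bs) * (A2 ^ 2 - B2 ^ 2) - (A2 * B2) * (As ^ 2 - Bs ^ 2)) +
      ((A1 * B1) * (As ^ 2 - Bs ^ 2) - (As * Bs) * (A1 ^ 2 - B1 ^ 2))) := by
  have hinj := IsFractionRing.injective R (FractionRing R)
  apply hinj
  set φ := algebraMap R (FractionRing R) with hφ
  have inv : ∀ x y : R, x * y = 1 → φ x ≠ 0 ∧ φ y = (φ x)⁻¹ := by
    intro x y hxy
    have h1 : φ x * φ y = 1 := by rw [← map_mul, hxy, map_one]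
    have h2 : φ x ≠ 0 := left_ne_zero_of_mul_eq_one h1
    exact ⟨h2, eq_inv_of_mul_eq_one_right h1⟩
  obtain ⟨n1, i1⟩ := inv _ _ e1
  obtain ⟨n2, i2⟩ := inv _ _ e2
  obtain ⟨m1, j1⟩ := inv _ _ f1
  obtain ⟨m2, j2⟩ := inv _ _ f2
  obtain ⟨n, i⟩ := inv _ _ e
  obtain ⟨m, j⟩ := inv _ _ f
  have ih : φ h = 1 / 2 := by
    obtain ⟨k1, k2⟩ := inv _ _ hh
    rw [k2, map_ofNat, one_div]
  have : CharZero (FractionRing R) := charZero_of_injective_algebraMap hinj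
  have := key (φ c) (φ a1) (φ a2) (φ b1) (φ b2) n1 n2 m1 m2 (by rw [← map_add, ← ea]; exact n)
    (by rw [← map_add, ← eb]; exact m)
  simp only [map_add, map_sub, map_mul, map_pow, map_ofNat, i1, i2, j1, j2, i, j, ih]
  rw [ea, eb, map_add, map_add]
  exact this

theorem hd_sub {F G : ℂ → PowerSeries ℂ} {F' G' : PowerSeries ℂ} {w : ℂ} (hF : HD F F' w)
    (hG : HD G G' w) : HD (fun u => F u - G u) (F' - G') w := by
  intro n
  have := (hF n).sub (hG n)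
  simp only [map_sub]
  exact this

theorem hd_C {f : ℂ → ℂ} {f' w : ℂ} (hf : HasDerivAt f f' w) :
    HD (fun u => PowerSeries.C (f u)) (PowerSeries.C f') w := by
  intro n
  by_cases hn : n = 0
  · subst hn
    simpa using hf
  · simpa [PowerSeries.coeff_C, hn] using hasDerivAt_const w (0 : ℂ)

theorem thm (hA1 : EC237.A1) : EC237.A3 := by
  intro w hw v1 v2 h1 h2 h12
  obtain ⟨_, hinv, _, hder, hmul⟩ := hA1 w hw
  have hw0 : w ≠ 0 := by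
    rintro rfl
    simp at hw
  have h12' : (v1 + v2).1 ≠ 0 := h12
  obtain ⟨i1, j1⟩ := hinv v1 h1
  obtain ⟨i2, j2⟩ := hinv v2 h2
  obtain ⟨i, j⟩ := hinv (v1 + v2) h12'
  obtain ⟨d1, g1⟩ := hder v1 h1
  obtain ⟨d2, g2⟩ := hder v2 h2
  obtain ⟨d, g⟩ := hder (v1 + v2) h12'
  have ea : KAs w (v1 + v2) = KAs w v1 + KAs w v2 := by
    unfold KAs KA
    simp only [Prod.fst_add, Prod.snd_add, Int.cast_add, map_add, map_mul]
    ring
  have eb : KBs w (v1 + v2) = KBs w v1 + KBs w v2 := by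
    unfold KBs KB
    simp only [Prod.fst_add, Prod.snd_add, Int.cast_add, map_add, map_mul, map_sub]
    ring
  have hX : HD (fun u => XX u v1 v2) _ w := hd_sub (hmul _ _ _ _ d1 g2) (hmul _ _ _ _ g1 d2)
  have hS := hmul _ _ _ _ d g
  have hXS := hmul _ _ _ _ hX hS
  have hc : HasDerivAt (fun u : ℂ => -(Complex.I * u ^ 2)) (-(Complex.I * (2 * w))) w := by
    have := ((hasDerivAt_pow 2 w).const_mul Complex.I).neg
    exact this.congr_deriv (by norm_num)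
  have hP := hmul _ _ _ _ (hd_C hc) hXS
  have e0 : (fun u => Pp u v1 v2) = fun u => PowerSeries.C (-(Complex.I * u ^ 2)) *
      (XX u v1 v2 * (As u (v1 + v2) * Bs u (v1 + v2))) := by
    funext u
    unfold Pp
    rw [PowerSeries.smul_eq_C_mul]
  rw [e0]
  refine (congrArg (fun D => HD _ D w) ?_).mp hP
  have hh2 : (2 : PowerSeries ℂ) * PowerSeries.C (1 / 2 : ℂ) = 1 := by
    rw [show (2 : PowerSeries ℂ) = PowerSeries.C (2 : ℂ) from (map_ofNat _ 2).symm, ← map_mul]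
    norm_num
  have : CharZero (PowerSeries ℂ) :=
    charZero_of_injective_ringHom (f := PowerSeries.C (R := ℂ)) PowerSeries.C_injective
  have k := keyR (-(PowerSeries.C Complex.I * PowerSeries.C w)) (PowerSeries.C (1 / 2 : ℂ))
    (KAs w v1) (KAs w v2) (KBs w v1) (KBs w v2) (KAs w (v1 + v2)) (KBs w (v1 + v2))
    (As w v1) (As w v2) (Bs w v1) (Bs w v2) (As w (v1 + v2)) (Bs w (v1 + v2))
    hh2 i1 i2 j1 j2 i j ea eb
  have hcw : PowerSeries.C w * PowerSeries.C w⁻¹ = (1 : PowerSeries ℂ) := by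
    rw [← map_mul, mul_inv_cancel₀ hw0, map_one]
  have c1 : PowerSeries.C (w / (2 * Complex.I)) =
      -(PowerSeries.C Complex.I * PowerSeries.C w * PowerSeries.C (1 / 2 : ℂ)) := by
    rw [← map_mul, ← map_mul, ← map_neg]
    congr 1
    rw [div_eq_iff (by simp)]
    linear_combination w * Complex.I_sq
  have c2 : PowerSeries.C (-(Complex.I * w ^ 2)) =
      -(PowerSeries.C Complex.I * PowerSeries.C w * PowerSeries.C w : PowerSeries ℂ) := by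
    rw [← map_mul, ← map_mul, ← map_neg]
    congr 1
    ring
  have c3 : PowerSeries.C (-(Complex.I * (2 * w))) =
      -(PowerSeries.C Complex.I * 2 * PowerSeries.C w : PowerSeries ℂ) := by
    rw [show (2 : PowerSeries ℂ) = PowerSeries.C (2 : ℂ) from (map_ofNat _ 2).symm,
      ← map_mul, ← map_mul, ← map_neg]
    congr 1
    ring
  unfold dP hh xx XX
  simp only [PowerSeries.smul_eq_C_mul]
  rw [c1, c2, c3]
  generalize As w v1 = A1 at *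
  generalize As w v2 = A2 at *
  generalize As w (v1 + v2) = A at *
  generalize Bs w v1 = B1 at *
  generalize Bs w v2 = B2 at *
  generalize Bs w (v1 + v2) = B at *
  generalize KAs w v1 = a1 at *
  generalize KAs w v2 = a2 at *
  generalize KAs w (v1 + v2) = a at *
  generalize KBs w v1 = b1 at *
  generalize KBs w v2 = b2 at *
  generalize KBs w (v1 + v2) = b at *
  generalize (PowerSeries.C (1 / 2 : ℂ) : PowerSeries ℂ) = h at *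
  generalize (PowerSeries.C Complex.I : PowerSeries ℂ) = cI at *
  generalize (PowerSeries.C w⁻¹ : PowerSeries ℂ) = ci at *
  generalize (PowerSeries.C w : PowerSeries ℂ) = cw at *
  linear_combination k + (-(cI * cw) *
    (((h * (A1 ^ 2 * b1 - A1) * B2 + A1 * (h * (B2 ^ 2 * a2 - B2))) -
      (h * (B1 ^ 2 * a1 - B1) * A2 + B1 * (h * (A2 ^ 2 * b2 - A2)))) * (A * B) +
      (A1 * B2 - B1 * A2) *
        (h * (A ^ 2 * b - A) * B + A * (h * (B ^ 2 * a - B)))) +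
    cI * cw * h * ((A2 * B2) * (A1 ^ 2 - B1 ^ 2) - (A1 * B1) * (A2 ^ 2 - B2 ^ 2) +
      ((A * B) * (A2 ^ 2 - B2 ^ 2) - (A2 * B2) * (A ^ 2 - B ^ 2)) +
      ((A1 * B1) * (A ^ 2 - B ^ 2) - (A * B) * (A1 ^ 2 - B1 ^ 2)))) * hcw

end Pool.Agent.Helper8.EC.D_A3
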