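import Pool.Agent.Helper23.EC.DGoalsM

/-!
# MP_ecc237_nt, Part D, packet R1: differentiability of `M0`, `M2`
-/

set_option autoImplicit false

open Filter Topology Set

namespace Pool.Agent.Helper8.EC.D_R1

open EC237

theorem summable_norm : Summable (fun k : ℤ × ℤ => (‖k‖ ^ 3)⁻¹) := by
  have h := EisensteinSeries.summable_one_div_norm_rpow (k := 3) (by norm_num)
  have h2 := ((finTwoArrowEquiv ℤ).symm.summable_iff (f := fun x : Fin 2 → ℤ => ‖x‖ ^ (-3 : ℝ))).2 h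
  refine h2.congr ?_
  intro k
  obtain ⟨a, b⟩ := k
  have h3 : ‖(finTwoArrowEquiv ℤ).symm (a, b)‖ = ‖((a, b) : ℤ × ℤ)‖ := by
    rw [EisensteinSeries.norm_eq_max_natAbs, Prod.norm_def]
    simp only [Int.norm_eq_abs]
    push_cast
    simp [finTwoArrowEquiv]
  simp only [Function.comp]
  rw [h3, Real.rpow_neg (norm_nonneg _)]
  norm_cast

theorem fst_le (k : ℤ × ℤ) : |(k.1 : ℝ)| ≤ ‖k‖ := by
  rw [Prod.norm_def, ← Int.norm_eq_abs]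
  exact le_max_left _ _

theorem snd_le (k : ℤ × ℤ) : |(k.2 : ℝ)| ≤ ‖k‖ := by
  rw [Prod.norm_def, ← Int.norm_eq_abs]
  exact le_max_right _ _

theorem one_le_norm {k : ℤ × ℤ} (h : InCl 1 k) : 1 ≤ ‖k‖ := by
  by_contra hcon
  push Not at hcon
  have h1 := lt_of_le_of_lt (fst_le k) hcon
  have h2 := lt_of_le_of_lt (snd_le k) hcon
  have h3 : k.1 = 0 := by
    have : |k.1| < 1 := by exact_mod_cast h1
    exact Int.abs_lt_one_iff.1 this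
  have h4 : k.2 = 0 := by
    have : |k.2| < 1 := by exact_mod_cast h2
    exact Int.abs_lt_one_iff.1 this
  unfold InCl at h
  rw [h3, h4] at h
  norm_num at h

theorem Nn_ge (k : ℤ × ℤ) (y c : ℝ) (hc1 : c ≤ 1) (hc2 : c ≤ y ^ 2) :
    c * ‖k‖ ^ 2 ≤ Nn y k := by
  have h1 : (k.1 : ℝ) ^ 2 + (k.2 : ℝ) ^ 2 ≥ ‖k‖ ^ 2 := by
    rw [Prod.norm_def, Int.norm_eq_abs, Int.norm_eq_abs]
    rcases max_cases |(k.1 : ℝ)| |(k.2 : ℝ)| with ⟨h, _⟩ | ⟨h, _⟩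
    · rw [h, sq_abs]
      nlinarith [sq_nonneg (k.2 : ℝ)]
    · rw [h, sq_abs]
      nlinarith [sq_nonneg (k.1 : ℝ)]
  unfold Nn
  have h2 : 0 ≤ (1 - c) * (k.1 : ℝ) ^ 2 := mul_nonneg (by linarith) (sq_nonneg _)
  have h3 : 0 ≤ (y ^ 2 - c) * (k.2 : ℝ) ^ 2 := mul_nonneg (by linarith) (sq_nonneg _)
  by_cases hc : 0 ≤ c
  · nlinarith [mul_le_mul_of_nonneg_left h1 hc]
  · push Not at hc
    have : c * ‖k‖ ^ 2 ≤ 0 := mul_nonpos_of_nonpos_of_nonneg hc.le (sq_nonneg _)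
    nlinarith [sq_nonneg (k.1 : ℝ), sq_nonneg (k.2 : ℝ), mul_nonneg (sq_nonneg (k.2 : ℝ)) (sq_nonneg y)]

theorem quot (a A c R N : ℝ) (j : ℕ) (hc : 0 < c) (hR : 0 < R) (hN : c * R ^ 2 ≤ N)
    (h : |a| * R ^ 3 ≤ A * R ^ (2 * j)) : |a / N ^ j| ≤ A / c ^ j * (R ^ 3)⁻¹ := by
  have h1 : 0 < c * R ^ 2 := by positivity
  have hN0 : 0 < N := lt_of_lt_of_le h1 hN
  rw [abs_div, abs_of_pos (pow_pos hN0 j)]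
  calc |a| / N ^ j ≤ |a| / (c * R ^ 2) ^ j :=
        div_le_div_of_nonneg_left (abs_nonneg _) (pow_pos h1 j)
          (pow_le_pow_left₀ h1.le hN j)
    _ = |a| * R ^ 3 / (c ^ j * R ^ (2 * j) * R ^ 3) := by
        rw [mul_pow, ← pow_mul]
        field_simp
    _ ≤ A * R ^ (2 * j) / (c ^ j * R ^ (2 * j) * R ^ 3) :=
        div_le_div_of_nonneg_right h (by positivity)
    _ = A / c ^ j * (R ^ 3)⁻¹ := by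
        field_simp

/-- The terms of `M0`, `M0'`, `M2`, `M2'`. -/
noncomputable def T1 (k : ℤ × ℤ) (y : ℝ) : ℝ := (k.2:ℝ) * y ^ 2 / Nn y k ^ 2

noncomputable def T2 (k : ℤ × ℤ) (y : ℝ) : ℝ :=
  2 * (k.2:ℝ) * y / Nn y k ^ 2 - 4 * (k.2:ℝ) ^ 3 * y ^ 3 / Nn y k ^ 3

noncomputable def T3 (k : ℤ × ℤ) (y : ℝ) : ℝ :=
  (k.2:ℝ) * y ^ 2 * (10 * (k.1:ℝ) ^ 2 - 2 * (k.2:ℝ) ^ 2 * y ^ 2) / Nn y k ^ 4

noncomputable def T4 (k : ℤ × ℤ) (y : ℝ) : ℝ :=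
  (k.2:ℝ) * (20 * (k.1:ℝ) ^ 2 * y - 8 * (k.2:ℝ) ^ 2 * y ^ 3) / Nn y k ^ 4
      - 8 * (k.2:ℝ) ^ 3 * y ^ 3 * (10 * (k.1:ℝ) ^ 2 - 2 * (k.2:ℝ) ^ 2 * y ^ 2) / Nn y k ^ 5

section bounds

variable (m n R Y y : ℝ)

theorem b1 (hm : |m| ≤ R) (hy0 : 0 ≤ y) (hy : y ≤ Y) (hR : 1 ≤ R) :
    |m * y ^ 2| * R ^ 3 ≤ Y ^ 2 * R ^ (2 * 2) := by
  rw [abs_mul, abs_of_nonneg (sq_nonneg y)]
  have h1 : y ^ 2 ≤ Y ^ 2 := pow_le_pow_left₀ hy0 hy 2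
  calc |m| * y ^ 2 * R ^ 3 ≤ R * Y ^ 2 * R ^ 3 := by gcongr
    _ = Y ^ 2 * R ^ (2 * 2) := by ring

theorem b2 (hm : |m| ≤ R) (hy0 : 0 ≤ y) (hy : y ≤ Y) (hR : 1 ≤ R) :
    |2 * m * y| * R ^ 3 ≤ 2 * Y * R ^ (2 * 2) := by
  rw [abs_mul, abs_mul, abs_of_nonneg hy0, abs_of_pos (show (0 : ℝ) < 2 by norm_num)]
  calc 2 * |m| * y * R ^ 3 ≤ 2 * R * Y * R ^ 3 := by gcongr
    _ = 2 * Y * R ^ (2 * 2) := by ring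

theorem b3 (hm : |m| ≤ R) (hy0 : 0 ≤ y) (hy : y ≤ Y) (hR : 1 ≤ R) :
    |4 * m ^ 3 * y ^ 3| * R ^ 3 ≤ 4 * Y ^ 3 * R ^ (2 * 3) := by
  rw [abs_mul, abs_mul, abs_of_nonneg (pow_nonneg hy0 3),
    abs_of_pos (show (0 : ℝ) < 4 by norm_num), abs_pow]
  calc 4 * |m| ^ 3 * y ^ 3 * R ^ 3 ≤ 4 * R ^ 3 * Y ^ 3 * R ^ 3 := by gcongr
    _ = 4 * Y ^ 3 * R ^ (2 * 3) := by ring

theorem inner (p q : ℝ) (hp : 0 ≤ p) (hq : 0 ≤ q) (hn : |n| ≤ R) (hm : |m| ≤ R) :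
    |p * n ^ 2 - q * m ^ 2| ≤ (p + q) * R ^ 2 := by
  have h1 : n ^ 2 ≤ R ^ 2 := by
    rw [← sq_abs]
    exact pow_le_pow_left₀ (abs_nonneg _) hn 2
  have h2 : m ^ 2 ≤ R ^ 2 := by
    rw [← sq_abs]
    exact pow_le_pow_left₀ (abs_nonneg _) hm 2
  rw [abs_le]
  constructor
  · nlinarith [mul_nonneg hp (sq_nonneg n), mul_le_mul_of_nonneg_left h2 hq,
      mul_nonneg hp (sq_nonneg R)]
  · nlinarith [mul_nonneg hq (sq_nonneg m), mul_le_mul_of_nonneg_left h1 hp,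
      mul_nonneg hq (sq_nonneg R)]

theorem b4 (hn : |n| ≤ R) (hm : |m| ≤ R) (hy0 : 0 ≤ y) (hy : y ≤ Y) (hR : 1 ≤ R) :
    |m * y ^ 2 * (10 * n ^ 2 - 2 * m ^ 2 * y ^ 2)| * R ^ 3 ≤
      Y ^ 2 * (10 + 2 * Y ^ 2) * R ^ (2 * 4) := by
  have hR0 : 0 ≤ R := by linarith
  have h1 : y ^ 2 ≤ Y ^ 2 := pow_le_pow_left₀ hy0 hy 2
  have h2 := inner m n R 10 (2 * y ^ 2) (by norm_num) (by positivity) hn hm
  have h3 : (10 + 2 * y ^ 2) * R ^ 2 ≤ (10 + 2 * Y ^ 2) * R ^ 2 := by gcongr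
  have e : 10 * n ^ 2 - 2 * m ^ 2 * y ^ 2 = 10 * n ^ 2 - 2 * y ^ 2 * m ^ 2 := by ring
  rw [e, abs_mul, abs_mul, abs_of_nonneg (sq_nonneg y)]
  calc |m| * y ^ 2 * |10 * n ^ 2 - 2 * y ^ 2 * m ^ 2| * R ^ 3
      ≤ R * Y ^ 2 * ((10 + 2 * Y ^ 2) * R ^ 2) * R ^ 3 := by
        have := h2.trans h3
        gcongr
    _ = Y ^ 2 * (10 + 2 * Y ^ 2) * R ^ 6 := by ring
    _ ≤ Y ^ 2 * (10 + 2 * Y ^ 2) * R ^ (2 * 4) := by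
        have : R ^ 6 ≤ R ^ (2 * 4) := pow_le_pow_right₀ hR (by norm_num)
        gcongr

theorem b5 (hn : |n| ≤ R) (hm : |m| ≤ R) (hy0 : 0 ≤ y) (hy : y ≤ Y) (hR : 1 ≤ R) :
    |m * (20 * n ^ 2 * y - 8 * m ^ 2 * y ^ 3)| * R ^ 3 ≤
      (20 * Y + 8 * Y ^ 3) * R ^ (2 * 4) := by
  have hR0 : 0 ≤ R := by linarith
  have hY0 : 0 ≤ Y := by linarith
  have h2 := inner m n R (20 * y) (8 * y ^ 3) (by positivity) (by positivity) hn hm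
  have h3 : (20 * y + 8 * y ^ 3) * R ^ 2 ≤ (20 * Y + 8 * Y ^ 3) * R ^ 2 := by gcongr
  have e : 20 * n ^ 2 * y - 8 * m ^ 2 * y ^ 3 = 20 * y * n ^ 2 - 8 * y ^ 3 * m ^ 2 := by ring
  rw [e, abs_mul]
  calc |m| * |20 * y * n ^ 2 - 8 * y ^ 3 * m ^ 2| * R ^ 3
      ≤ R * ((20 * Y + 8 * Y ^ 3) * R ^ 2) * R ^ 3 := by
        have := h2.trans h3
        gcongr
    _ = (20 * Y + 8 * Y ^ 3) * R ^ 6 := by ring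
    _ ≤ (20 * Y + 8 * Y ^ 3) * R ^ (2 * 4) := by
        have : R ^ 6 ≤ R ^ (2 * 4) := pow_le_pow_right₀ hR (by norm_num)
        gcongr

theorem b6 (hn : |n| ≤ R) (hm : |m| ≤ R) (hy0 : 0 ≤ y) (hy : y ≤ Y) (hR : 1 ≤ R) :
    |8 * m ^ 3 * y ^ 3 * (10 * n ^ 2 - 2 * m ^ 2 * y ^ 2)| * R ^ 3 ≤
      8 * Y ^ 3 * (10 + 2 * Y ^ 2) * R ^ (2 * 5) := by
  have hR0 : 0 ≤ R := by linarith
  have hY0 : 0 ≤ Y := by linarith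
  have h1 : y ^ 2 ≤ Y ^ 2 := pow_le_pow_left₀ hy0 hy 2
  have h2 := inner m n R 10 (2 * y ^ 2) (by norm_num) (by positivity) hn hm
  have h3 : (10 + 2 * y ^ 2) * R ^ 2 ≤ (10 + 2 * Y ^ 2) * R ^ 2 := by gcongr
  have e : 10 * n ^ 2 - 2 * m ^ 2 * y ^ 2 = 10 * n ^ 2 - 2 * y ^ 2 * m ^ 2 := by ring
  rw [e, abs_mul, abs_mul, abs_mul, abs_of_nonneg (pow_nonneg hy0 3),
    abs_of_pos (show (0 : ℝ) < 8 by norm_num), abs_pow]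
  calc 8 * |m| ^ 3 * y ^ 3 * |10 * n ^ 2 - 2 * y ^ 2 * m ^ 2| * R ^ 3
      ≤ 8 * R ^ 3 * Y ^ 3 * ((10 + 2 * Y ^ 2) * R ^ 2) * R ^ 3 := by
        have := h2.trans h3
        gcongr
    _ = 8 * Y ^ 3 * (10 + 2 * Y ^ 2) * R ^ 8 := by ring
    _ ≤ 8 * Y ^ 3 * (10 + 2 * Y ^ 2) * R ^ (2 * 5) := by
        have : R ^ 8 ≤ R ^ (2 * 5) := pow_le_pow_right₀ hR (by norm_num)
        gcongr

end bounds

/-- the constant -/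
noncomputable def cc (y0 : ℝ) : ℝ := min 1 (y0 ^ 2 / 4)

theorem cc_pos {y0 : ℝ} (h : 0 < y0) : 0 < cc y0 := lt_min one_pos (by positivity)

theorem Nn_ge' (k : ℤ × ℤ) {y0 y : ℝ} (h0 : 0 < y0) (hy : y ∈ Ioo (y0 / 2) (2 * y0)) :
    cc y0 * ‖k‖ ^ 2 ≤ Nn y k := by
  refine Nn_ge k y (cc y0) (min_le_left _ _) (le_trans (min_le_right _ _) ?_)
  nlinarith [hy.1]

theorem bounds {y0 : ℝ} (h0 : 0 < y0) : ∃ C : ℝ, ∀ k : ℤ × ℤ, InCl 1 k →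
    ∀ y ∈ Ioo (y0 / 2) (2 * y0), |T1 k y| ≤ C * (‖k‖ ^ 3)⁻¹ ∧ |T2 k y| ≤ C * (‖k‖ ^ 3)⁻¹ ∧
      |T3 k y| ≤ C * (‖k‖ ^ 3)⁻¹ ∧ |T4 k y| ≤ C * (‖k‖ ^ 3)⁻¹ := by
  obtain ⟨Y, hY⟩ : ∃ Y : ℝ, Y = 2 * y0 := ⟨_, rfl⟩
  obtain ⟨c, hc⟩ : ∃ c : ℝ, c = cc y0 := ⟨_, rfl⟩
  have hc0 : 0 < c := hc ▸ cc_pos h0
  have hY0 : 0 < Y := by rw [hY]; positivity
  refine ⟨Y ^ 2 / c ^ 2 + (2 * Y / c ^ 2 + 4 * Y ^ 3 / c ^ 3) + Y ^ 2 * (10 + 2 * Y ^ 2) / c ^ 4 +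
    ((20 * Y + 8 * Y ^ 3) / c ^ 4 + 8 * Y ^ 3 * (10 + 2 * Y ^ 2) / c ^ 5), ?_⟩
  intro k hk y hy
  have hR := one_le_norm hk
  have hR0 : 0 < ‖k‖ := by linarith
  have hm := snd_le k
  have hn := fst_le k
  have hy0 : 0 ≤ y := by linarith [hy.1]
  have hyY : y ≤ Y := by rw [hY]; exact hy.2.le
  have hN : c * ‖k‖ ^ 2 ≤ Nn y k := hc ▸ Nn_ge' k h0 hy
  have q1 := quot _ _ c ‖k‖ (Nn y k) 2 hc0 hR0 hN (b1 (k.2:ℝ) ‖k‖ Y y hm hy0 hyY hR)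
  have q2 := quot _ _ c ‖k‖ (Nn y k) 2 hc0 hR0 hN (b2 (k.2:ℝ) ‖k‖ Y y hm hy0 hyY hR)
  have q3 := quot _ _ c ‖k‖ (Nn y k) 3 hc0 hR0 hN (b3 (k.2:ℝ) ‖k‖ Y y hm hy0 hyY hR)
  have q4 := quot _ _ c ‖k‖ (Nn y k) 4 hc0 hR0 hN (b4 (k.2:ℝ) (k.1:ℝ) ‖k‖ Y y hn hm hy0 hyY hR)
  have q5 := quot _ _ c ‖k‖ (Nn y k) 4 hc0 hR0 hN (b5 (k.2:ℝ) (k.1:ℝ) ‖k‖ Y y hn hm hy0 hyY hR)
  have q6 := quot _ _ c ‖k‖ (Nn y k) 5 hc0 hR0 hN (b6 (k.2:ℝ) (k.1:ℝ) ‖k‖ Y y hn hm hy0 hyY hR)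
  have hRi : 0 < (‖k‖ ^ 3)⁻¹ := by positivity
  generalize (‖k‖ ^ 3)⁻¹ = r at *
  have p1 : 0 ≤ Y ^ 2 / c ^ 2 * r := by positivity
  have p2 : 0 ≤ 2 * Y / c ^ 2 * r := by positivity
  have p3 : 0 ≤ 4 * Y ^ 3 / c ^ 3 * r := by positivity
  have p4 : 0 ≤ Y ^ 2 * (10 + 2 * Y ^ 2) / c ^ 4 * r := by positivity
  have p5 : 0 ≤ (20 * Y + 8 * Y ^ 3) / c ^ 4 * r := by positivity
  have p6 : 0 ≤ 8 * Y ^ 3 * (10 + 2 * Y ^ 2) / c ^ 5 * r := by positivity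
  have t2 := abs_sub (2 * (k.2:ℝ) * y / Nn y k ^ 2) (4 * (k.2:ℝ) ^ 3 * y ^ 3 / Nn y k ^ 3)
  have t4 := abs_sub ((k.2:ℝ) * (20 * (k.1:ℝ) ^ 2 * y - 8 * (k.2:ℝ) ^ 2 * y ^ 3) / Nn y k ^ 4)
    (8 * (k.2:ℝ) ^ 3 * y ^ 3 * (10 * (k.1:ℝ) ^ 2 - 2 * (k.2:ℝ) ^ 2 * y ^ 2) / Nn y k ^ 5)
  refine ⟨?_, ?_, ?_, ?_⟩
  · unfold T1
    linarith
  · unfold T2
    linarith
  · unfold T3
    linarith
  · unfold T4
    linarith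

theorem der1 {k : ℤ × ℤ} {y : ℝ} (hN : Nn y k ≠ 0) : HasDerivAt (T1 k) (T2 k y) y := by
  unfold T1 T2 Nn at *
  have hd : HasDerivAt (fun y : ℝ => (k.1:ℝ) ^ 2 + (k.2:ℝ) ^ 2 * y ^ 2)
      ((k.2:ℝ) ^ 2 * (2 * y)) y := by
    have := ((hasDerivAt_pow 2 y).const_mul ((k.2:ℝ) ^ 2)).const_add ((k.1:ℝ) ^ 2)
    exact this.congr_deriv (by norm_num)
  have hn : HasDerivAt (fun y : ℝ => (k.2:ℝ) * y ^ 2) ((k.2:ℝ) * (2 * y)) y := by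
    have := (hasDerivAt_pow 2 y).const_mul (k.2:ℝ)
    exact this.congr_deriv (by norm_num)
  refine (hn.div (hd.pow 2) (pow_ne_zero 2 hN)).congr_deriv ?_
  simp only [Pi.pow_apply]
  field_simp
  ring

theorem der3 {k : ℤ × ℤ} {y : ℝ} (hN : Nn y k ≠ 0) : HasDerivAt (T3 k) (T4 k y) y := by
  unfold T3 T4 Nn at *
  have hd : HasDerivAt (fun y : ℝ => (k.1:ℝ) ^ 2 + (k.2:ℝ) ^ 2 * y ^ 2)
      ((k.2:ℝ) ^ 2 * (2 * y)) y := by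
    have := ((hasDerivAt_pow 2 y).const_mul ((k.2:ℝ) ^ 2)).const_add ((k.1:ℝ) ^ 2)
    exact this.congr_deriv (by norm_num)
  have hn : HasDerivAt (fun y : ℝ => (k.2:ℝ) * y ^ 2) ((k.2:ℝ) * (2 * y)) y := by
    have := (hasDerivAt_pow 2 y).const_mul (k.2:ℝ)
    exact this.congr_deriv (by norm_num)
  have hn2 : HasDerivAt (fun y : ℝ => 10 * (k.1:ℝ) ^ 2 - 2 * (k.2:ℝ) ^ 2 * y ^ 2)
      (-(2 * (k.2:ℝ) ^ 2 * (2 * y))) y := by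
    have := ((hasDerivAt_pow 2 y).const_mul (2 * (k.2:ℝ) ^ 2)).const_sub (10 * (k.1:ℝ) ^ 2)
    exact this.congr_deriv (by norm_num)
  refine ((hn.mul hn2).div (hd.pow 4) (pow_ne_zero 4 hN)).congr_deriv ?_
  simp only [Pi.pow_apply, Pi.mul_apply]
  field_simp
  ring

theorem main (F F' : ℤ × ℤ → ℝ → ℝ) {y : ℝ} (hy : 0 < y)
    (hb : ∃ C : ℝ, ∀ k : ℤ × ℤ, InCl 1 k → ∀ z ∈ Ioo (y / 2) (2 * y),
      |F k z| ≤ C * (‖k‖ ^ 3)⁻¹ ∧ |F' k z| ≤ C * (‖k‖ ^ 3)⁻¹)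
    (hd : ∀ k : ℤ × ℤ, InCl 1 k → ∀ z ∈ Ioo (y / 2) (2 * y), HasDerivAt (F k) (F' k z) z) :
    HasDerivAt (fun z => ∑' k : ℤ × ℤ, if InCl 1 k then F k z else 0)
      (∑' k : ℤ × ℤ, if InCl 1 k then F' k y else 0) y ∧
    Summable (fun k : ℤ × ℤ => if InCl 1 k then F k y else 0) ∧
    Summable (fun k : ℤ × ℤ => if InCl 1 k then F' k y else 0) := by
  obtain ⟨C, hC⟩ := hb
  have hyI : y ∈ Ioo (y / 2) (2 * y) := ⟨by linarith, by linarith⟩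
  have hsum : Summable (fun k : ℤ × ℤ => |C| * (‖k‖ ^ 3)⁻¹) := summable_norm.mul_left _
  have hle : ∀ k : ℤ × ℤ, C * (‖k‖ ^ 3)⁻¹ ≤ |C| * (‖k‖ ^ 3)⁻¹ := fun k =>
    mul_le_mul_of_nonneg_right (le_abs_self C) (by positivity)
  have hnn : ∀ k : ℤ × ℤ, 0 ≤ |C| * (‖k‖ ^ 3)⁻¹ := fun k => by positivity
  have hF : ∀ k : ℤ × ℤ, ∀ z ∈ Ioo (y / 2) (2 * y),
      ‖if InCl 1 k then F k z else 0‖ ≤ |C| * (‖k‖ ^ 3)⁻¹ := by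
    intro k z hz
    by_cases hk : InCl 1 k
    · rw [if_pos hk, Real.norm_eq_abs]
      exact ((hC k hk z hz).1).trans (hle k)
    · rw [if_neg hk, norm_zero]
      exact hnn k
  have hF' : ∀ k : ℤ × ℤ, ∀ z ∈ Ioo (y / 2) (2 * y),
      ‖if InCl 1 k then F' k z else 0‖ ≤ |C| * (‖k‖ ^ 3)⁻¹ := by
    intro k z hz
    by_cases hk : InCl 1 k
    · rw [if_pos hk, Real.norm_eq_abs]
      exact ((hC k hk z hz).2).trans (hle k)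
    · rw [if_neg hk, norm_zero]
      exact hnn k
  have s1 : Summable (fun k : ℤ × ℤ => if InCl 1 k then F k y else 0) :=
    Summable.of_norm_bounded hsum fun k => hF k y hyI
  have s2 : Summable (fun k : ℤ × ℤ => if InCl 1 k then F' k y else 0) :=
    Summable.of_norm_bounded hsum fun k => hF' k y hyI
  refine ⟨?_, s1, s2⟩
  refine hasDerivAt_tsum_of_isPreconnected (g := fun k z => if InCl 1 k then F k z else 0)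
    (g' := fun k z => if InCl 1 k then F' k z else 0) hsum isOpen_Ioo
    isPreconnected_Ioo ?_ hF' hyI s1 hyI
  intro k z hz
  by_cases hk : InCl 1 k
  · simp only [if_pos hk]
    exact hd k hk z hz
  · simp only [if_neg hk]
    exact hasDerivAt_const z 0

theorem thm : EC237.R1 := by
  intro y hy
  obtain ⟨C, hC⟩ := bounds hy
  have hN : ∀ k : ℤ × ℤ, InCl 1 k → ∀ z ∈ Ioo (y / 2) (2 * y), Nn z k ≠ 0 := by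
    intro k hk z hz
    have h1 := Nn_ge' k hy hz
    have h2 := cc_pos hy
    have h3 := one_le_norm hk
    have h4 : 0 < cc y * ‖k‖ ^ 2 := by positivity
    exact (lt_of_lt_of_le h4 h1).ne'
  have m1 := main T1 T2 hy ⟨C, fun k hk z hz => ⟨(hC k hk z hz).1, (hC k hk z hz).2.1⟩⟩
    (fun k hk z hz => der1 (hN k hk z hz))
  have m2 := main T3 T4 hy ⟨C, fun k hk z hz => ⟨(hC k hk z hz).2.2.1, (hC k hk z hz).2.2.2⟩⟩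
    (fun k hk z hz => der3 (hN k hk z hz))
  exact ⟨m1.1, m2.1, m1.2.1, m1.2.2, m2.2.1, m2.2.2⟩

end Pool.Agent.Helper8.EC.D_R1
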