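import Pool.Agent.Helper8.EC.D_R1

/-!
# MP_ecc237_nt, packet 3281 (R2): the four one-variable sums.
-/

set_option autoImplicit false

open MeasureTheory Filter Topology Set EC237

namespace Pool.Agent.Helper8.EC.D_R2

theorem c0 (f g : PowerSeries ℂ) : PowerSeries.coeff 0 (f * g) =
    PowerSeries.coeff 0 f * PowerSeries.coeff 0 g := by
  simp [PowerSeries.coeff_mul]

theorem c1 (f g : PowerSeries ℂ) : PowerSeries.coeff 1 (f * g) =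
    PowerSeries.coeff 0 f * PowerSeries.coeff 1 g + PowerSeries.coeff 1 f * PowerSeries.coeff 0 g := by
  rw [PowerSeries.coeff_mul, Finset.Nat.sum_antidiagonal_eq_sum_range_succ_mk]
  simp [Finset.sum_range_succ]

theorem c2 (f g : PowerSeries ℂ) : PowerSeries.coeff 2 (f * g) =
    PowerSeries.coeff 0 f * PowerSeries.coeff 2 g + PowerSeries.coeff 1 f * PowerSeries.coeff 1 g
      + PowerSeries.coeff 2 f * PowerSeries.coeff 0 g := by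
  rw [PowerSeries.coeff_mul, Finset.Nat.sum_antidiagonal_eq_sum_range_succ_mk]
  simp [Finset.sum_range_succ]

theorem cg (a α : ℂ) (p : ℕ) : PowerSeries.coeff p (gser a α) = α ^ p * a ^ (p + 1) := by
  unfold gser
  rw [PowerSeries.coeff_mk]

theorem pp2 (w : ℂ) (k : ℤ × ℤ) : PowerSeries.coeff 2 (pp1 w (k, 1)) =
    ((KA w k)⁻¹ * (KB w k)⁻¹) * ((KA w k)⁻¹ - (KB w k)⁻¹) *
      (3 * ((KA w k)⁻¹ + (KB w k)⁻¹) ^ 2 - 2 * ((KA w k)⁻¹ * (KB w k)⁻¹)) := by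
  unfold pp1 As Bs
  rw [c2, c2, c1, c0]
  simp only [map_sub, cg]
  push_cast
  ring

theorem qq2 (w : ℂ) (k : ℤ × ℤ) : PowerSeries.coeff 2 (qq1 w (k, 1)) =
    6 * ((KA w k)⁻¹ - (KB w k)⁻¹) *
      (((KA w k)⁻¹ + (KB w k)⁻¹) ^ 4 - 3 * ((KA w k)⁻¹ + (KB w k)⁻¹) ^ 2 * ((KA w k)⁻¹ * (KB w k)⁻¹)
        + ((KA w k)⁻¹ * (KB w k)⁻¹) ^ 2) := by
  unfold qq1 As Bs
  rw [map_sub, pow_succ, pow_two, pow_succ, pow_two]
  rw [c2, c2, c1, c0, c2, c2, c1, c0]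
  simp only [cg]
  push_cast
  ring

theorem pp0 (w : ℂ) (k : ℤ × ℤ) : PowerSeries.coeff 0 (pp1 w (k, 0)) =
    ((KA w k)⁻¹ * (KB w k)⁻¹) * ((KA w k)⁻¹ - (KB w k)⁻¹) := by
  unfold pp1 As Bs
  rw [c0, c0]
  simp only [map_sub, cg]
  push_cast
  ring

theorem qq0 (w : ℂ) (k : ℤ × ℤ) : PowerSeries.coeff 0 (qq1 w (k, 0)) =
    ((KA w k)⁻¹ - (KB w k)⁻¹) *
      (((KA w k)⁻¹ + (KB w k)⁻¹) ^ 2 - ((KA w k)⁻¹ * (KB w k)⁻¹)) := by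
  unfold qq1 As Bs
  rw [map_sub, pow_succ, pow_two, pow_succ, pow_two]
  rw [c0, c0, c0, c0]
  simp only [cg]
  push_cast
  ring

theorem KAB (y : ℝ) (k : ℤ × ℤ) : KA (y:ℂ) k * KB (y:ℂ) k = ((Nn y k : ℝ) : ℂ) := by
  unfold KA KB Nn
  push_cast
  linear_combination (-((k.2:ℂ) ^ 2 * (y:ℂ) ^ 2)) * Complex.I_sq

theorem inv3 {y : ℝ} {k : ℤ × ℤ} (hN : Nn y k ≠ 0) :
    (KA (y:ℂ) k)⁻¹ * (KB (y:ℂ) k)⁻¹ = (((Nn y k)⁻¹ : ℝ) : ℂ) ∧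
    (KA (y:ℂ) k)⁻¹ - (KB (y:ℂ) k)⁻¹ = -(2 * Complex.I) * (((k.2:ℝ) * y * (Nn y k)⁻¹ : ℝ) : ℂ) ∧
    (KA (y:ℂ) k)⁻¹ + (KB (y:ℂ) k)⁻¹ = ((2 * (k.1:ℝ) * (Nn y k)⁻¹ : ℝ) : ℂ) := by
  have h := KAB y k
  have hN' : ((Nn y k : ℝ) : ℂ) ≠ 0 := by exact_mod_cast hN
  have hA : KA (y:ℂ) k ≠ 0 := by
    intro h0
    rw [h0, zero_mul] at h
    exact hN' h.symm
  have hB : KB (y:ℂ) k ≠ 0 := by
    intro h0
    rw [h0, mul_zero] at h
    exact hN' h.symm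
  have e1 : (KA (y:ℂ) k)⁻¹ = KB (y:ℂ) k * ((Nn y k : ℝ) : ℂ)⁻¹ := by
    rw [← h]
    field_simp
  have e2 : (KB (y:ℂ) k)⁻¹ = KA (y:ℂ) k * ((Nn y k : ℝ) : ℂ)⁻¹ := by
    rw [← h]
    field_simp
  refine ⟨?_, ?_, ?_⟩
  · rw [← mul_inv, h]
    push_cast
    rfl
  · rw [e1, e2]
    unfold KA KB
    push_cast
    ring
  · rw [e1, e2]
    unfold KA KB
    push_cast
    ring

theorem Nn0 {y : ℝ} (hy : 0 < y) {k : ℤ × ℤ} (hk : k ≠ 0) : Nn y k ≠ 0 := by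
  unfold Nn
  intro h
  have h1 : (k.1:ℝ) = 0 := by
    have : (k.1:ℝ) ^ 2 = 0 := by nlinarith [sq_nonneg (k.1:ℝ), sq_nonneg ((k.2:ℝ) * y)]
    exact pow_eq_zero_iff (two_ne_zero) |>.1 this
  have h2 : (k.2:ℝ) = 0 := by
    have : ((k.2:ℝ) * y) ^ 2 = 0 := by nlinarith [sq_nonneg (k.1:ℝ), sq_nonneg ((k.2:ℝ) * y)]
    have := pow_eq_zero_iff (two_ne_zero) |>.1 this
    exact (mul_eq_zero.1 this).resolve_right hy.ne'
  apply hk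
  ext
  · exact_mod_cast h1
  · exact_mod_cast h2

theorem cl1 {k : ℤ × ℤ} (h : InCl 1 k) : k ≠ 0 := by
  rintro rfl
  unfold InCl at h
  simp at h

theorem cl5 (k : ℤ × ℤ) : InCl 5 k ↔ InCl 1 (-k) := by
  unfold InCl
  simp only [Prod.fst_neg, Prod.snd_neg]
  omega

theorem hcongr {f g : ℤ × ℤ → ℂ} {a : ℂ} (h : ∀ k, f k = g k) : HasSum f a ↔ HasSum g a := by
  rw [funext h]

theorem thm (_hA1 : EC237.A1) (hR1 : EC237.R1) : EC237.R2 := by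
  intro y hy
  obtain ⟨-, -, s1, s2, s3, s4⟩ := hR1 y hy
  have hy' : y ≠ 0 := hy.ne'
  have h0 : HasSum (fun k : ℤ × ℤ => if InCl 1 k then (k.2:ℝ) * y ^ 2 / Nn y k ^ 2 else 0) (M0 y) :=
    s1.hasSum
  have h0d : HasSum (fun k : ℤ × ℤ => if InCl 1 k then
    2 * (k.2:ℝ) * y / Nn y k ^ 2 - 4 * (k.2:ℝ) ^ 3 * y ^ 3 / Nn y k ^ 3 else 0) (M0d y) := s2.hasSum
  have h2 : HasSum (fun k : ℤ × ℤ => if InCl 1 k then
    (k.2:ℝ) * y ^ 2 * (10 * (k.1:ℝ) ^ 2 - 2 * (k.2:ℝ) ^ 2 * y ^ 2) / Nn y k ^ 4 else 0) (M2 y) :=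
    s3.hasSum
  have h2d : HasSum (fun k : ℤ × ℤ => if InCl 1 k then
    (k.2:ℝ) * (20 * (k.1:ℝ) ^ 2 * y - 8 * (k.2:ℝ) ^ 2 * y ^ 3) / Nn y k ^ 4
      - 8 * (k.2:ℝ) ^ 3 * y ^ 3 * (10 * (k.1:ℝ) ^ 2 - 2 * (k.2:ℝ) ^ 2 * y ^ 2) / Nn y k ^ 5 else 0)
    (M2d y) := s4.hasSum
  have neg0 := (Equiv.neg (ℤ × ℤ)).hasSum_iff.2 h0
  have neg0d := (Equiv.neg (ℤ × ℤ)).hasSum_iff.2 h0d
  refine ⟨?_, ?_, ?_, ?_⟩
  · have := (Complex.hasSum_ofReal.2 (h2.div_const y)).mul_left (-(2 * Complex.I))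
    rw [neg_mul] at this
    refine (hcongr ?_).2 this
    intro k
    by_cases hk : InCl 1 k
    · have hN := Nn0 hy (cl1 hk)
      obtain ⟨e1, e2, e3⟩ := inv3 hN
      rw [if_pos hk, if_pos hk, pp2, e1, e2, e3]
      have key : ((Nn y k)⁻¹ * ((k.2:ℝ) * y * (Nn y k)⁻¹) *
          (3 * (2 * (k.1:ℝ) * (Nn y k)⁻¹) ^ 2 - 2 * (Nn y k)⁻¹) : ℝ) =
          (k.2:ℝ) * y ^ 2 * (10 * (k.1:ℝ) ^ 2 - 2 * (k.2:ℝ) ^ 2 * y ^ 2) / Nn y k ^ 4 / y := by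
        unfold Nn at hN ⊢
        field_simp
        ring
      rw [← key]
      push_cast
      ring
    · rw [if_neg hk, if_neg hk]
      simp
  · have := (Complex.hasSum_ofReal.2 ((h2.div_const y).add h2d)).mul_left (-(2 * Complex.I))
    rw [neg_mul] at this
    refine (hcongr ?_).2 this
    intro k
    by_cases hk : InCl 1 k
    · have hN := Nn0 hy (cl1 hk)
      obtain ⟨e1, e2, e3⟩ := inv3 hN
      rw [if_pos hk, if_pos hk, if_pos hk, qq2, e1, e2, e3]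
      have key : (6 * ((k.2:ℝ) * y * (Nn y k)⁻¹) *
          ((2 * (k.1:ℝ) * (Nn y k)⁻¹) ^ 4 - 3 * (2 * (k.1:ℝ) * (Nn y k)⁻¹) ^ 2 * (Nn y k)⁻¹
            + (Nn y k)⁻¹ ^ 2) : ℝ) =
          (k.2:ℝ) * y ^ 2 * (10 * (k.1:ℝ) ^ 2 - 2 * (k.2:ℝ) ^ 2 * y ^ 2) / Nn y k ^ 4 / y +
          ((k.2:ℝ) * (20 * (k.1:ℝ) ^ 2 * y - 8 * (k.2:ℝ) ^ 2 * y ^ 3) / Nn y k ^ 4
            - 8 * (k.2:ℝ) ^ 3 * y ^ 3 * (10 * (k.1:ℝ) ^ 2 - 2 * (k.2:ℝ) ^ 2 * y ^ 2) /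
              Nn y k ^ 5) := by
        unfold Nn at hN ⊢
        field_simp
        ring
      rw [← key]
      push_cast
      ring
    · rw [if_neg hk, if_neg hk, if_neg hk]
      simp
  · have := (Complex.hasSum_ofReal.2 (neg0.div_const y)).mul_left (2 * Complex.I)
    refine (hcongr ?_).2 this
    intro k
    simp only [Function.comp_apply, Equiv.neg_apply]
    by_cases hk : InCl 5 k
    · have hk' := (cl5 k).1 hk
      have hk0 : k ≠ 0 := fun h => cl1 hk' (by rw [h, neg_zero])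
      have hN := Nn0 hy hk0
      obtain ⟨e1, e2, e3⟩ := inv3 hN
      rw [if_pos hk, if_pos hk', pp0, e1, e2]
      have key : (-((Nn y k)⁻¹ * ((k.2:ℝ) * y * (Nn y k)⁻¹)) : ℝ) =
          ((-k).2:ℝ) * y ^ 2 / Nn y (-k) ^ 2 / y := by
        unfold Nn at hN ⊢
        simp only [Prod.fst_neg, Prod.snd_neg, Int.cast_neg, neg_sq]
        field_simp
      rw [← key]
      push_cast
      ring
    · have hk' : ¬ InCl 1 (-k) := fun h => hk ((cl5 k).2 h)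
      rw [if_neg hk, if_neg hk']
      simp
  · have := (Complex.hasSum_ofReal.2 ((neg0.div_const y).add neg0d)).mul_left (2 * Complex.I)
    refine (hcongr ?_).2 this
    intro k
    simp only [Function.comp_apply, Equiv.neg_apply]
    by_cases hk : InCl 5 k
    · have hk' := (cl5 k).1 hk
      have hk0 : k ≠ 0 := fun h => cl1 hk' (by rw [h, neg_zero])
      have hN := Nn0 hy hk0
      obtain ⟨e1, e2, e3⟩ := inv3 hN
      rw [if_pos hk, if_pos hk', if_pos hk', qq0, e1, e2, e3]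
      have key : (-(((k.2:ℝ) * y * (Nn y k)⁻¹) *
          ((2 * (k.1:ℝ) * (Nn y k)⁻¹) ^ 2 - (Nn y k)⁻¹)) : ℝ) =
          ((-k).2:ℝ) * y ^ 2 / Nn y (-k) ^ 2 / y +
          (2 * ((-k).2:ℝ) * y / Nn y (-k) ^ 2 - 4 * ((-k).2:ℝ) ^ 3 * y ^ 3 / Nn y (-k) ^ 3) := by
        unfold Nn at hN ⊢
        simp only [Prod.fst_neg, Prod.snd_neg, Int.cast_neg, neg_sq]
        field_simp
        ring
      rw [← key]
      push_cast
      ring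
    · have hk' : ¬ InCl 1 (-k) := fun h => hk ((cl5 k).2 h)
      rw [if_neg hk, if_neg hk', if_neg hk']
      simp

end Pool.Agent.Helper8.EC.D_R2
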